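import Mathlib

set_option autoImplicit false

open MeasureTheory Filter Topology Metric Set
open scoped ENNReal

namespace Pool.Agent.MP_66cee2_co.H80

/-- Euclidean space. -/
abbrev E (k : ℕ) := EuclideanSpace ℝ (Fin k)

/-- The filter of sets whose complement has outer density zero at the origin. -/
def dens (d : ℕ) : Filter (E d) where
  sets := {S | Tendsto (fun r : ℝ => volume (Sᶜ ∩ closedBall (0 : E d) r) /
    volume (closedBall (0 : E d) r)) (𝓝[>] 0) (𝓝 0)}
  univ_sets := by simp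
  sets_of_superset := by
    intro S T hS hST
    refine tendsto_of_tendsto_of_tendsto_of_le_of_le tendsto_const_nhds hS
      (fun _ => zero_le) (fun r => ?_)
    exact ENNReal.div_le_div_right
      (measure_mono (inter_subset_inter_left _ (compl_subset_compl.2 hST))) _
  inter_sets := by
    intro S T hS hT
    have h := Tendsto.add hS hT
    rw [add_zero] at h
    refine tendsto_of_tendsto_of_tendsto_of_le_of_le tendsto_const_nhds h
      (fun _ => zero_le) (fun r => ?_)
    show _ ≤ _ / _ + _ / _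
    rw [← ENNReal.add_div, compl_inter, union_inter_distrib_right]
    exact ENNReal.div_le_div_right (measure_union_le _ _) _

theorem mem_dens {d : ℕ} {S : Set (E d)} : S ∈ dens d ↔
    Tendsto (fun r : ℝ => volume (Sᶜ ∩ closedBall (0 : E d) r) /
      volume (closedBall (0 : E d) r)) (𝓝[>] 0) (𝓝 0) := Iff.rfl

theorem dens_neBot (d : ℕ) : (dens d).NeBot := by
  rw [neBot_iff, Ne, ← empty_mem_iff_bot, mem_dens]
  intro h
  have h1 : Tendsto (fun r : ℝ => volume ((∅ : Set (E d))ᶜ ∩ closedBall (0 : E d) r) /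
      volume (closedBall (0 : E d) r)) (𝓝[>] 0) (𝓝 1) := by
    refine tendsto_const_nhds.congr' ?_
    filter_upwards [self_mem_nhdsWithin] with r hr
    rw [compl_empty, univ_inter, ENNReal.div_self]
    · exact (measure_closedBall_pos volume _ hr).ne'
    · exact measure_closedBall_lt_top.ne
  exact zero_ne_one (tendsto_nhds_unique h h1)

theorem dens_le_ae (d : ℕ) : dens d ≤ ae (volume : Measure (E d)) := by
  intro S hS
  rw [mem_dens]
  have h0 : volume Sᶜ = 0 := mem_ae_iff.1 hS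
  refine tendsto_const_nhds.congr (fun r => ?_)
  rw [measure_mono_null inter_subset_left h0, ENNReal.zero_div]

theorem ae_shift {d : ℕ} {p : E d → Prop} (h : ∀ᵐ z, p z) (x : E d) :
    ∀ᶠ t in dens d, p (x + t) :=
  dens_le_ae d ((measurePreserving_add_left volume x).quasiMeasurePreserving.ae h)

theorem ae_dens_set {d : ℕ} {A : Set (E d)} (hA : MeasurableSet A) :
    ∀ᵐ x, x ∈ A → ∀ᶠ t in dens d, x + t ∈ A := by
  filter_upwards [Besicovitch.ae_tendsto_measure_inter_div_of_measurableSet volume hA.compl]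
    with x hx hxA
  rw [indicator_of_notMem (by simpa using hxA)] at hx
  show {t | x + t ∈ A} ∈ dens d
  rw [mem_dens]
  refine hx.congr (fun r => ?_)
  have e : {t | x + t ∈ A}ᶜ ∩ closedBall (0 : E d) r
      = (fun t => x + t) ⁻¹' (Aᶜ ∩ closedBall x r) := by
    ext t
    simp [dist_eq_norm]
  rw [e, measure_preimage_add, Measure.addHaar_closedBall_center volume x r]

theorem ae_approx {d n : ℕ} {g : E d → E n} (hg : AEMeasurable g volume) :
    ∀ᵐ x, Tendsto (fun t => g (x + t)) (dens d) (𝓝 (g x)) := by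
  have hm := hg.measurable_mk
  have he := hg.ae_eq_mk
  obtain ⟨B, hBc, -, hB⟩ := TopologicalSpace.exists_countable_basis (E n)
  have h1 : ∀ᵐ x, ∀ U ∈ B, x ∈ hg.mk g ⁻¹' U → ∀ᶠ t in dens d, x + t ∈ hg.mk g ⁻¹' U :=
    (ae_ball_iff hBc).2 (fun U hU => ae_dens_set (hm (hB.isOpen hU).measurableSet))
  filter_upwards [h1, he] with x hx hex
  rw [hB.nhds_hasBasis.tendsto_right_iff]
  rintro U ⟨hU, hxU⟩
  filter_upwards [hx U hU (by rwa [mem_preimage, ← hex]), ae_shift he x] with t ht het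
  rwa [het]

theorem two_units {d : ℕ} (hd : 2 ≤ d) (h : E d) (hh : ‖h‖ ≤ 2) :
    ∃ u v : E d, ‖u‖ = 1 ∧ ‖v‖ = 1 ∧ u + v = h := by
  have h1 : Module.finrank ℝ (Submodule.span ℝ {h}) ≤ 1 := by
    simpa using finrank_span_le_card (R := ℝ) ({h} : Set (E d))
  have h2 := Submodule.finrank_add_finrank_orthogonal (Submodule.span ℝ {h})
  rw [finrank_euclideanSpace_fin] at h2
  have h3 : (Submodule.span ℝ {h})ᗮ ≠ ⊥ := by
    intro hb
    rw [hb, finrank_bot] at h2
    omega
  obtain ⟨w, hw, hw0⟩ := Submodule.exists_mem_ne_zero_of_ne_bot h3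
  have hwh : inner ℝ h w = 0 := Submodule.mem_orthogonal_singleton_iff_inner_right.1 hw
  have hwp : 0 < ‖w‖ := norm_pos_iff.2 hw0
  have hs : 0 ≤ 1 - ‖h‖ ^ 2 / 4 := by nlinarith [norm_nonneg h]
  set s : ℝ := √(1 - ‖h‖ ^ 2 / 4) / ‖w‖ with hsd
  have hs2 : s ^ 2 * ‖w‖ ^ 2 = 1 - ‖h‖ ^ 2 / 4 := by
    rw [hsd, div_pow, Real.sq_sqrt hs]
    field_simp
  have key : ∀ c : ℝ, c ^ 2 = s ^ 2 → ‖(1 / 2 : ℝ) • h + c • w‖ = 1 := by
    intro c hc
    have : ‖(1 / 2 : ℝ) • h + c • w‖ ^ 2 = 1 := by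
      rw [norm_add_sq_real, inner_smul_left, inner_smul_right, hwh, norm_smul, norm_smul,
        mul_pow, mul_pow, Real.norm_eq_abs, Real.norm_eq_abs, sq_abs, sq_abs, hc, hs2]
      simp only [mul_zero]
      ring
    nlinarith [norm_nonneg ((1 / 2 : ℝ) • h + c • w)]
  refine ⟨_, _, key s rfl, key (-s) (by ring), ?_⟩
  module

theorem lift {d n : ℕ} (hd : 2 ≤ d) {Z : Set (E n)} (hZ : IsClosed Z) {g0 : E d → E n}
    (hm : AEMeasurable g0 volume) (hv : ∀ᵐ x, g0 x ∈ Z)
    (hu : ∀ u : E d, ‖u‖ = 1 → ∀ᵐ x, ‖g0 x - g0 (x + u)‖ = 1) :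
    ∃ g : E d → E n, g =ᵐ[volume] g0 ∧ (∀ x, g x ∈ Z) ∧
      ∀ x y, ‖x - y‖ = 1 → ‖g x - g y‖ = 1 := by
  haveI := dens_neBot d
  have hap := ae_approx hm
  have h2 : ∀ h : E d, ‖h‖ ≤ 2 → ∀ᵐ z, ‖g0 z - g0 (z + h)‖ ≤ 2 := by
    intro h hh
    obtain ⟨u, v, hu1, hv1, rfl⟩ := two_units hd h hh
    filter_upwards [hu u hu1,
      (measurePreserving_add_right volume u).quasiMeasurePreserving.ae (hu v hv1)] with z a b
    have := norm_sub_le_norm_sub_add_norm_sub (g0 z) (g0 (z + u)) (g0 (z + u + v))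
    rw [← add_assoc]
    linarith
  have hb : ∀ x : E d, ∃ c : E n, ∀ᶠ t in dens d, g0 (x + t) ∈ closedBall c 3 := by
    intro x
    obtain ⟨x0, hx0, hx1⟩ := Measure.exists_mem_of_measure_ne_zero_of_ae
      (measure_closedBall_pos volume x one_pos).ne' (ae_restrict_of_ae hap)
    refine ⟨g0 x0, ?_⟩
    have hn : ‖x - x0‖ ≤ 2 := by
      rw [mem_closedBall, dist_comm, dist_eq_norm] at hx0
      linarith
    filter_upwards [hx1 (closedBall_mem_nhds (g0 x0) one_pos), ae_shift (h2 _ hn) x0]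
      with t a b
    have e : x0 + t + (x - x0) = x + t := by abel
    rw [e, norm_sub_rev] at b
    rw [mem_preimage, mem_closedBall, dist_eq_norm] at a
    rw [mem_closedBall, dist_eq_norm]
    have := norm_sub_le_norm_sub_add_norm_sub (g0 (x + t)) (g0 (x0 + t)) (g0 x0)
    linarith
  have hU : (Ultrafilter.of (dens d) : Filter (E d)) ≤ dens d := Ultrafilter.of_le _
  have hl : ∀ x : E d, ∃ a : E n,
      Tendsto (fun t => g0 (x + t)) (Ultrafilter.of (dens d)) (𝓝 a) := by
    intro x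
    obtain ⟨c, hc⟩ := hb x
    obtain ⟨a, -, ha⟩ := (isCompact_closedBall c 3).ultrafilter_le_nhds
      ((Ultrafilter.of (dens d)).map (fun t => g0 (x + t))) (le_principal_iff.2 (hU hc))
    exact ⟨a, ha⟩
  choose g hg using hl
  refine ⟨g, ?_, fun x => hZ.mem_of_tendsto (hg x) (hU (ae_shift hv x)), fun x y hxy => ?_⟩
  · filter_upwards [hap] with x hx
    exact tendsto_nhds_unique (hg x) (hx.mono_left hU)
  · have h1 : ‖y - x‖ = 1 := by rwa [norm_sub_rev]
    refine tendsto_nhds_unique ((hg x).sub (hg y)).norm (tendsto_const_nhds.congr' ?_)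
    filter_upwards [hU (ae_shift (hu _ h1) x)] with t ht
    have e : x + t + (y - x) = y + t := by abel
    rw [← ht, e]

end Pool.Agent.MP_66cee2_co.H80
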